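import Pool.Agent.Helper13_FK.Stmts

/-!
# FK: the module GEN (a generator)
-/

set_option autoImplicit false

namespace Pool.Agent.FK.H17

open NumberField Polynomial Module

theorem exists_gen (L : Type) [Field L] [NumberField L] :
    ∃ θ : 𝓞 L, ∀ σ τ : L →+* ℂ, σ (θ : L) = τ (θ : L) → σ = τ := by
  obtain ⟨α, hα⟩ := Field.exists_primitive_element ℚ L
  have hal : IsAlgebraic ℤ α := by
    have h1 : IsAlgebraic ℚ α := Algebra.IsAlgebraic.isAlgebraic α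
    exact (IsFractionRing.isAlgebraic_iff ℤ ℚ L).2 h1
  obtain ⟨y, hy, hint⟩ := hal.exists_integral_multiple
  refine ⟨⟨y • α, hint⟩, ?_⟩
  intro σ τ h
  have h1 : σ (y • α) = τ (y • α) := h
  rw [zsmul_eq_mul, map_mul, map_mul, map_intCast, map_intCast] at h1
  have hy' : (y : ℂ) ≠ 0 := by exact_mod_cast hy
  have h2 : σ α = τ α := mul_left_cancel₀ hy' h1
  have h3 := (Field.primitive_element_iff_algHom_eq_of_eval ℚ ℂ
    (fun x => IsAlgClosed.splits _) α σ.toRatAlgHom).1 hα τ.toRatAlgHom h2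
  ext x
  exact DFunLike.congr_fun h3 x

theorem gen : GenStmt := by
  intro ι _ K _ _
  classical
  choose θ hθ using fun a => exists_gen (K a)
  -- a bound for the conjugates
  obtain ⟨M, hM⟩ : ∃ M : ℕ, ∀ i j : Emb K, ‖cj K θ i - cj K θ j‖ < M := by
    obtain ⟨B, hB⟩ := (Set.finite_range (fun q : Emb K × Emb K =>
      ‖cj K θ q.1 - cj K θ q.2‖)).bddAbove
    obtain ⟨M, hM⟩ := exists_nat_gt B
    exact ⟨M, fun i j => lt_of_le_of_lt (hB ⟨(i, j), rfl⟩) hM⟩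
  let en : ι ≃ Fin (Fintype.card ι) := Fintype.equivFin ι
  let v : RR K := fun a => θ a + ((M * (en a : ℕ) : ℕ) : 𝓞 (K a))
  refine ⟨v, ?_⟩
  have hv : ∀ i : Emb K, cj K v i = cj K θ i + (M : ℂ) * ((en i.1 : ℕ) : ℂ) := by
    intro i
    change i.2 (algebraMap (𝓞 (K i.1)) (K i.1) (θ i.1 + ((M * (en i.1 : ℕ) : ℕ) : 𝓞 (K i.1)))) = _
    rw [map_add, map_add, map_natCast, map_natCast, Nat.cast_mul]
    rfl
  rintro ⟨a, σ⟩ ⟨b, τ⟩ h
  rw [hv, hv] at h
  by_cases hab : a = b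
  · subst hab
    have h1 : σ ((θ a : 𝓞 (K a)) : K a) = τ ((θ a : 𝓞 (K a)) : K a) := add_right_cancel h
    rw [hθ a σ τ h1]
  · exfalso
    have h1 : cj K θ ⟨a, σ⟩ - cj K θ ⟨b, τ⟩ =
        (M : ℂ) * ((((en b : ℕ) : ℤ) - ((en a : ℕ) : ℤ) : ℤ) : ℂ) := by
      push_cast
      linear_combination h
    have h2 : ((en b : ℕ) : ℤ) - ((en a : ℕ) : ℤ) ≠ 0 := by
      intro h3
      apply hab
      apply en.injective
      apply Fin.ext
      omega
    have h3 := hM ⟨a, σ⟩ ⟨b, τ⟩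
    rw [h1, norm_mul, Complex.norm_natCast, Complex.norm_intCast] at h3
    have h4 : (1 : ℝ) ≤ |((((en b : ℕ) : ℤ) - ((en a : ℕ) : ℤ) : ℤ) : ℝ)| := by
      rw [← Int.cast_abs]
      exact_mod_cast Int.one_le_abs h2
    have h5 : (0 : ℝ) ≤ M := Nat.cast_nonneg M
    nlinarith

end Pool.Agent.FK.H17
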