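import Pool.Agent.Helper13_FK.Stmts

/-!
# FK: the module NOD (a single pair gives a node prime)
-/

set_option autoImplicit false

namespace Pool.Agent.FK.H17

open NumberField Polynomial Module

/-- one coincidence: the range has one element less -/
theorem ncard_range_of_pair {I κ : Type*} [Fintype I] (w : I → κ) (i j : I) (hij : i ≠ j)
    (hw : w i = w j) (h : ∀ k l, k ≠ l → w k = w l → (k = i ∧ l = j) ∨ (k = j ∧ l = i)) :
    (Set.range w).ncard = Fintype.card I - 1 := by
  classical
  have h1 : Set.range w = ((Finset.univ.erase i).image w : Finset κ) := by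
    ext x
    rw [Finset.mem_coe, Finset.mem_image]
    constructor
    · rintro ⟨k, rfl⟩
      by_cases hk : k = i
      · exact ⟨j, Finset.mem_erase.2 ⟨hij.symm, Finset.mem_univ _⟩, by rw [hk, hw]⟩
      · exact ⟨k, Finset.mem_erase.2 ⟨hk, Finset.mem_univ _⟩, rfl⟩
    · rintro ⟨k, -, rfl⟩
      exact ⟨k, rfl⟩
  rw [h1, Set.ncard_coe_finset, Finset.card_image_of_injOn, Finset.card_erase_of_mem
    (Finset.mem_univ i), Finset.card_univ]
  intro k hk l hl hkl
  by_contra hne
  rcases h k l hne hkl with h2 | h2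
  · exact (Finset.mem_erase.1 hk).1 h2.1
  · exact (Finset.mem_erase.1 hl).1 h2.2

/-- the number of roots of a monic integer polynomial in an algebraically closed field of
characteristic `p` does not depend on the field -/
theorem ncard_roots_eq (p : ℕ) [Fact p.Prime] (Ω Ω' : Type*) [Field Ω] [Field Ω'] [CharP Ω p]
    [CharP Ω' p] [IsAlgClosed Ω] (φ : Ω →+* Ω') (f : ℤ[X]) (hf : f.Monic) :
    {x : Ω | eval₂ (Int.castRingHom Ω) x f = 0}.ncard =
      {x : Ω' | eval₂ (Int.castRingHom Ω') x f = 0}.ncard := by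
  have h1 : {x : Ω' | eval₂ (Int.castRingHom Ω') x f = 0} =
      φ '' {x : Ω | eval₂ (Int.castRingHom Ω) x f = 0} := by
    have hev : ∀ x : Ω, φ (eval₂ (Int.castRingHom Ω) x f) =
        eval₂ (Int.castRingHom Ω') (φ x) f := by
      intro x
      rw [hom_eval₂, RingHom.ext_int (φ.comp (Int.castRingHom Ω)) (Int.castRingHom Ω')]
    ext y
    constructor
    · intro hy
      rw [Set.mem_ofPred_eq] at hy
      set g := f.map (Int.castRingHom Ω) with hg
      have hgm : g.Monic := hf.map _
      have hgs : g.Splits := IsAlgClosed.splits g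
      have h2 := hgs.eq_prod_roots_of_monic hgm
      have h3 : eval₂ φ y g = 0 := by
        rw [hg, eval₂_map, RingHom.ext_int (φ.comp (Int.castRingHom Ω)) (Int.castRingHom Ω')]
        exact hy
      rw [h2, eval₂_multiset_prod, Multiset.prod_eq_zero_iff] at h3
      rw [Multiset.map_map] at h3
      obtain ⟨r, hr, hr0⟩ := Multiset.mem_map.1 h3
      rw [Function.comp_apply, eval₂_sub, eval₂_X, eval₂_C, sub_eq_zero] at hr0
      refine ⟨r, ?_, hr0.symm⟩
      rw [Set.mem_ofPred_eq, ← eval_map]
      exact (mem_roots'.1 hr).2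
    · rintro ⟨x, hx, rfl⟩
      rw [Set.mem_ofPred_eq] at hx ⊢
      rw [← hev, hx, map_zero]
  rw [h1, Set.ncard_image_of_injective _ φ.injective]

theorem nod : NodStmt := by
  intro B hB I _ z f hz hf p hp hp2 hop
  classical
  obtain ⟨i, j, hij, hvij, hop⟩ := hop
  have : Fact p.Prime := ⟨hp⟩
  set V := B p with hV
  have hzV : ∀ k, z k ∈ V := fun k => (hB p hp).1 _ (hz k)
  let zV : I → V := fun k => ⟨z k, hzV k⟩
  -- `f` is monic of degree `card I`
  have hfm : f.Monic := by
    refine monic_of_injective (f := Int.castRingHom ℂ) (RingHom.injective_int _) ?_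
    rw [hf]
    exact monic_prod_of_monic _ _ (fun k _ => monic_X_sub_C _)
  have hfd : f.natDegree = Fintype.card I := by
    have h1 : (f.map (Int.castRingHom ℂ)).natDegree = f.natDegree := hfm.natDegree_map _
    rw [← h1, hf, natDegree_prod_of_monic _ _ (fun k _ => monic_X_sub_C _)]
    simp
  have hfV : f.map (Int.castRingHom V) = ∏ k, (X - C (zV k)) := by
    apply map_injective V.subtype Subtype.val_injective
    rw [map_map, RingHom.ext_int (V.subtype.comp (Int.castRingHom V)) (Int.castRingHom ℂ), hf,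
      Polynomial.map_prod]
    apply Finset.prod_congr rfl
    intro k _
    rw [Polynomial.map_sub, map_X, map_C]
    rfl
  -- the residue field
  set k := IsLocalRing.ResidueField V with hk
  set Ω' := AlgebraicClosure k with hΩ'
  set g : V →+* Ω' := (algebraMap k Ω').comp (IsLocalRing.residue V) with hg
  have hg0 : ∀ x : V, g x = 0 ↔ V.valuation (x : ℂ) < 1 := by
    intro x
    rw [hg, RingHom.comp_apply, map_eq_zero_iff _ (algebraMap k Ω').injective,
      IsLocalRing.residue_eq_zero_iff, ValuationSubring.valuation_lt_one_iff]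
  have hp0 : ((p : ℕ) : Ω') = 0 := by
    have h1 : g ((p : ℕ) : V) = 0 := by
      rw [hg0]
      have h2 := (hB p hp).2
      have h3 : (((p : ℕ) : V) : ℂ) = (p : ℂ) := by simp
      rw [h3]
      exact h2
    rw [map_natCast] at h1
    exact h1
  have hchar : CharP Ω' p := (CharP.charP_iff_prime_eq_zero hp).2 hp0
  have hfΩ : f.map (Int.castRingHom Ω') = ∏ k, (X - C (g (zV k))) := by
    rw [← RingHom.ext_int (g.comp (Int.castRingHom V)) (Int.castRingHom Ω'), ← map_map, hfV,
      Polynomial.map_prod]
    apply Finset.prod_congr rfl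
    intro k _
    rw [Polynomial.map_sub, map_X, map_C]
  have hroots : {x : Ω' | eval₂ (Int.castRingHom Ω') x f = 0} = Set.range (fun k => g (zV k)) := by
    ext x
    rw [Set.mem_ofPred_eq, ← eval_map, hfΩ, eval_prod, Finset.prod_eq_zero_iff]
    constructor
    · rintro ⟨k, -, hk⟩
      rw [eval_sub, eval_X, eval_C, sub_eq_zero] at hk
      exact ⟨k, hk.symm⟩
    · rintro ⟨k, hk⟩
      refine ⟨k, Finset.mem_univ _, ?_⟩
      rw [eval_sub, eval_X, eval_C, sub_eq_zero]
      exact hk.symm
  have hpair : ∀ k l, g (zV k) = g (zV l) ↔ V.valuation (z k - z l) < 1 := by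
    intro k l
    rw [← sub_eq_zero, ← map_sub, hg0]
    rfl
  refine ⟨hp, hp2, ?_, ?_⟩
  · rw [hfm.leadingCoeff]
    intro h
    have h2 : p ∣ 1 := by exact_mod_cast h
    exact hp.one_lt.ne' (Nat.dvd_one.1 h2)
  · let : Algebra (ZMod p) Ω' := ZMod.algebra Ω' p
    have φ : AlgebraicClosure (ZMod p) →ₐ[ZMod p] Ω' := IsAlgClosed.lift
    have hc : CharP (AlgebraicClosure (ZMod p)) p :=
      charP_of_injective_algebraMap (algebraMap (ZMod p) (AlgebraicClosure (ZMod p))).injective p
    have h1 := ncard_roots_eq p (AlgebraicClosure (ZMod p)) Ω' φ.toRingHom f hfm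
    rw [h1, hroots, hfd]
    apply ncard_range_of_pair _ i j hij ((hpair i j).2 hvij)
    intro k l hkl h2
    exact hop k l hkl ((hpair k l).1 h2)

end Pool.Agent.FK.H17
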