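import Pool.Agent.Helper13_FK.Stmts

/-!
# FK: the module VAL (valuation rings of the complex numbers over the primes)
-/

set_option autoImplicit false

namespace Pool.Agent.FK.H17

open NumberField Polynomial Module

theorem exists_val (p : ℕ) (hp : p.Prime) : ∃ B : ValuationSubring ℂ,
    (∀ x : ℂ, IsIntegral ℤ x → x ∈ B) ∧ B.valuation (p : ℂ) < 1 := by
  let A : Subring ℂ := (integralClosure ℤ ℂ).toSubring
  have hA : ∀ x : ℂ, x ∈ A ↔ IsIntegral ℤ x := fun x => Iff.rfl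
  let I : Ideal A := Ideal.span {(p : A)}
  have hI : I ≠ ⊤ := by
    intro h
    rw [Ideal.eq_top_iff_one, Ideal.mem_span_singleton'] at h
    obtain ⟨x, hx⟩ := h
    have h1 : (x : ℂ) * (p : ℂ) = 1 := by
      have := congrArg (fun y : A => (y : ℂ)) hx
      simpa using this
    have hp0 : (p : ℂ) ≠ 0 := by exact_mod_cast hp.ne_zero
    have h2 : (x : ℂ) = algebraMap ℚ ℂ ((p : ℚ)⁻¹) := by
      rw [map_inv₀, map_natCast]
      exact eq_inv_of_mul_eq_one_left h1
    have h3 : IsIntegral ℤ (algebraMap ℚ ℂ ((p : ℚ)⁻¹)) := h2 ▸ (hA x).1 x.2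
    have h4 : IsIntegral ℤ ((p : ℚ)⁻¹) :=
      (isIntegral_algebraMap_iff (algebraMap ℚ ℂ).injective).1 h3
    obtain ⟨n, hn⟩ := IsIntegrallyClosed.isIntegral_iff.1 h4
    have h5 : (n : ℚ) * p = 1 := by
      rw [eq_intCast] at hn
      rw [hn]
      exact inv_mul_cancel₀ (by exact_mod_cast hp.ne_zero)
    have h6 : n * (p : ℤ) = 1 := by exact_mod_cast h5
    have h7 : (p : ℤ) ∣ 1 := ⟨n, by rw [mul_comm]; exact h6.symm⟩
    have h8 : p ∣ 1 := by exact_mod_cast h7
    exact hp.one_lt.ne' (Nat.dvd_one.1 h8)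
  obtain ⟨B, hAB, hIB⟩ := Ideal.image_subset_nonunits_valuationSubring I hI
  refine ⟨B, fun x hx => hAB ((hA x).2 hx), ?_⟩
  have h1 : (p : ℂ) ∈ B.nonunits := by
    apply hIB
    refine ⟨(p : A), Ideal.subset_span rfl, ?_⟩
    simp
  exact h1

theorem val : ValStmt := by
  classical
  have h : ∀ p : ℕ, ∃ B : ValuationSubring ℂ, p.Prime →
      (∀ x : ℂ, IsIntegral ℤ x → x ∈ B) ∧ B.valuation (p : ℂ) < 1 := by
    intro p
    by_cases hp : p.Prime
    · obtain ⟨B, hB⟩ := exists_val p hp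
      exact ⟨B, fun _ => hB⟩
    · exact ⟨⊤, fun h => absurd h hp⟩
  choose B hB using h
  exact ⟨B, fun p hp => hB p hp⟩

end Pool.Agent.FK.H17
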